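import Pool.Agent.H79RN.D

/-!
# The Mandelbrot set is exponentially flat at infinitely renormalizable parameters of bounded type
with a priori bounds

The starting result `RenormalizableDimension` shows that, under bounds which are subexponential in the
period for infinitely many periods, the harmonic measure and Green's function of the discs of radius
`r` about an infinitely renormalizable parameter `c` are smaller than every power of `r`. It uses one
period at a time. Here all the periods of a chain `p_0 | p_1 | p_2 | ⋯` with bounds are used together.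

* From bounds at the periods `p_k` and `p_(k+1) = m p_k` it follows that the radii satisfy
  `r_k ≤ 2 C_(k+1) C_k ^ m r_(k+1)`: the image of a small disc about the critical point is
  quadratically small, and cannot contain the disc (`Lv.size`).
* Schwarz's lemma, in the dynamical variable at each level and in the parameter, shows that parameters
  at distance `≤ δ exp (- 3 ∑_(j<k) m_j log (2 C_j C_(j+1)) - n log C_k)` from `c` need more than `n p_k`
  steps to escape.
-/

set_option autoImplicit false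

open Filter Topology Set Metric MeasureTheory Complex N62a1eb23

namespace Pool.Agent.Results.MP_b511e9_an.ExponentialFlatness

open Pool.Agent.H713R2

/-- The `n`-th point `f_a^n(0)` of the critical orbit of `z ↦ z ^ 2 + a`. -/
def P (n : ℕ) (a : ℂ) : ℂ := (fun z : ℂ => z ^ 2 + a)^[n] 0

/-- The angles `t ∈ (0, 2π]` of the external rays landing at distance less than `r` from `c`. -/
def angles (ψ : ℂ → ℂ) (c : ℂ) (r : ℝ) : Set ℝ :=
  {t | t ∈ Ioc 0 (2 * Real.pi) ∧ ∃ ζ ∈ ball c r,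
    Tendsto (fun ρ : ℝ => ψ (ρ * exp (t * I))) (𝓝[>] 1) (𝓝 ζ)}

/-- The harmonic measure (from infinity) of the disc of radius `r`, up to the factor `2π`. -/
noncomputable def harm (ψ : ℂ → ℂ) (c : ℂ) (r : ℝ) : ℝ := (volume (angles ψ c r)).toReal

/-- The supremum of Green's function of the complement of the Mandelbrot set over a disc: Green's
function is `log ‖w‖` at the point `ψ w`. -/
noncomputable def green (ψ : ℂ → ℂ) (c : ℂ) (r : ℝ) : ℝ :=
  sSup {x | ∃ w : ℂ, 1 < ‖w‖ ∧ ‖ψ w - c‖ ≤ r ∧ Real.log ‖w‖ = x}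

/-- `g` is proper of degree at most two from the bounded open set `U` onto a set which contains the
closure of `U`. Quadratic-like maps have this property. -/
def PolynomialLike (g : ℂ → ℂ) (U : Set ℂ) : Prop :=
  IsOpen U ∧ Bornology.IsBounded U ∧ closure U ⊆ g '' U ∧
    (∀ K ⊆ g '' U, IsCompact K → IsCompact {z | z ∈ U ∧ g z ∈ K}) ∧
    ∀ w ∈ g '' U, {z | z ∈ U ∧ g z = w}.encard ≤ 2

/-- `z ↦ z ^ 2 + c` is renormalizable of period `p` with bounds `C`: `U` contains the discs of some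
radius `r` about the points `f^[n p] 0`, and its image has diameter at most `C r`. -/
def Bounds (C : ℝ) (c : ℂ) (p : ℕ) : Prop :=
  ∃ (U : Set ℂ) (r : ℝ), PolynomialLike ((fun z : ℂ => z ^ 2 + c)^[p]) U ∧ 0 < r ∧
    (∀ n : ℕ, ball (P (n * p) c) r ⊆ U) ∧
    ∀ z ∈ U, ∀ z' ∈ U,
      ‖(fun z : ℂ => z ^ 2 + c)^[p] z - (fun z : ℂ => z ^ 2 + c)^[p] z'‖ ≤ C * r

/-- `c` is infinitely renormalizable, with bounds `C k` for the periods `p k` of a chain: every period
divides the next one and is smaller. -/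
def Chain (C : ℕ → ℝ) (c : ℂ) (p : ℕ → ℕ) : Prop :=
  1 ≤ p 0 ∧ ∀ k : ℕ, Bounds (C k) c (p k) ∧ p k ∣ p (k + 1) ∧ p k < p (k + 1)

/-- `3 ∑_(j<k) (p (j+1) / p j) log (2 C j C (j+1)) + n log (C k)` -/
noncomputable def cost (C : ℕ → ℝ) (p : ℕ → ℕ) (k n : ℕ) : ℝ :=
  3 * ∑ j ∈ Finset.range k, (p (j + 1) / p j : ℝ) * Real.log (2 * C j * C (j + 1)) +
    n * Real.log (C k)

/-- Exponential flatness: the harmonic measure and Green's function of the discs of radius `r` about
`c` are less than `exp (- r ^ (-1/A))`, the derivatives with respect to the parameter grow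
polynomially, and if `ψ` has a continuous extension `F` to the circle (local connectivity of the
Mandelbrot set) and `F ζ = c`, then the modulus of continuity of `F` at `ζ` is at least
`(log (1 / δ)) ^ (-A)`. -/
def ExpFlat (A : ℝ) (ψ : ℂ → ℂ) (c : ℂ) : Prop :=
  (∀ᶠ r : ℝ in 𝓝[>] 0, harm ψ c r < Real.exp (-(r ^ (-(1 / A)))) ∧
    green ψ c r < Real.exp (-(r ^ (-(1 / A))))) ∧
  (∀ᶠ n : ℕ in atTop, ‖deriv (P n) c‖ < (n : ℝ) ^ A) ∧
  ∀ F : ℂ → ℂ, ContinuousOn F {w : ℂ | 1 ≤ ‖w‖} → (∀ w : ℂ, 1 < ‖w‖ → F w = ψ w) →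
    ∀ ζ : ℂ, ‖ζ‖ = 1 → F ζ = c → ∀ᶠ δ : ℝ in 𝓝[>] 0,
      ∃ ξ : ℂ, ‖ξ‖ = 1 ∧ ‖ξ - ζ‖ ≤ δ ∧ (Real.log (1 / δ)) ^ (-A) ≤ ‖F ξ - F ζ‖

theorem lv_of {C : ℝ} {c : ℂ} {p : ℕ} (h : Bounds C c p) : ∃ r, Pool.Agent.H79RN.Lv 2 c p C r := by
  obtain ⟨U, r, ⟨_, hUb, hcl, _, _⟩, hr, hball, hdiam⟩ := h
  exact ⟨r, U, hUb, hcl, hr, hball, hdiam⟩

theorem mem_of {C : ℝ} {c : ℂ} {p : ℕ} (hp : 1 ≤ p) (h : Bounds C c p) : c ∈ multibrotSet 2 := by
  obtain ⟨U, r, hU, hr, hball, _⟩ := h
  exact Pool.Agent.Y736.RN.ren_mem hp ⟨U, hU, by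
    have h1 := hball 0 (mem_ball_self hr)
    simpa [P] using h1, fun n _ => hball n (mem_ball_self hr)⟩

/-- **Exponential flatness.** The exterior map `ψ` of the Mandelbrot set exists. Let `c` be infinitely
renormalizable with bounds `C k` along a chain of periods `p k`.

1. There is `δ > 0` such that for all `k` and `n ≥ 1`, with `R = δ exp (- cost C p k n)` and
`T = n p_k`: the critical points of all parameters at distance at most `R` stay in the disc of radius
`3` for `T` steps, the derivatives of the first `T` points of the critical orbit with respect to the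
parameter are at most `3 / R` at `c`, Green's function is at most `log 4 / 2 ^ (T - 1)` on the disc of
radius `R` about `c`, and the harmonic measure of the disc of radius `R / 2` is at most
`4 π / 2 ^ (T - 1)`.

2. If the bounds are `C` for all `k` and `p (k + 1) ≤ B p k` (bounded type) then the Mandelbrot set is
exponentially flat at `c`, with every exponent `A > 3 B log (2 C ^ 2) / log 2`. -/
theorem result :
    (∃ ψ : ℂ → ℂ, IsExteriorMap mandelbrotSet ψ) ∧
    ∀ ψ : ℂ → ℂ, IsExteriorMap mandelbrotSet ψ →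
      (∀ (C : ℕ → ℝ) (c : ℂ) (p : ℕ → ℕ), Chain C c p →
        ∃ δ : ℝ, 0 < δ ∧ ∀ (k n T : ℕ) (R : ℝ), 1 ≤ n → T = n * p k →
          R = δ * Real.exp (-cost C p k n) →
          (∀ a : ℂ, ‖a - c‖ ≤ R → ∀ i : ℕ, i ≤ T → ‖P i a‖ ≤ 3) ∧
          (∀ i : ℕ, i ≤ T → ‖deriv (P i) c‖ ≤ 3 / R) ∧
          green ψ c R ≤ Real.log 4 / 2 ^ (T - 1) ∧
          harm ψ c (R / 2) ≤ 4 * Real.pi / 2 ^ (T - 1)) ∧
      ∀ (B : ℕ) (C A : ℝ), 3 * B * Real.log (2 * C ^ 2) / Real.log 2 < A →
        ∀ (c : ℂ) (p : ℕ → ℕ), Chain (fun _ => C) c p → (∀ k, p (k + 1) ≤ B * p k) →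
          ExpFlat A ψ c := by
  obtain ⟨β, hβ⟩ := exists_beta (d := 2) le_rfl
  refine ⟨⟨_, exteriorMap_of_beta hβ⟩, ?_⟩
  intro ψ hψ
  have data : ∀ (C : ℕ → ℝ) (c : ℂ) (p : ℕ → ℕ), Chain C c p →
      c ∈ multibrotSet 2 ∧ (∀ k, 1 ≤ p k) ∧ ∃ (m : ℕ → ℕ) (r : ℕ → ℝ),
        (∀ k, Pool.Agent.H79RN.Lv 2 c (p k) (C k) (r k)) ∧ (∀ k, 2 ≤ m k) ∧
        ∀ k, p (k + 1) = m k * p k := by
    intro C c p h
    obtain ⟨hp0, h⟩ := h
    have hpk : ∀ k, 1 ≤ p k := by
      intro k
      induction k with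
      | zero => exact hp0
      | succ k ih => exact ih.trans (h k).2.2.le
    refine ⟨mem_of (hpk 0) (h 0).1, hpk, fun k => p (k + 1) / p k, ?_⟩
    choose r hr using fun k => lv_of (h k).1
    refine ⟨r, hr, ?_, ?_⟩
    · intro k
      obtain ⟨q, hq⟩ := (h k).2.1
      have h1 := (h k).2.2
      show 2 ≤ p (k + 1) / p k
      rw [hq, Nat.mul_div_cancel_left _ (hpk k)]
      by_contra hcon
      push Not at hcon
      have h2 : p k * q ≤ p k * 1 := Nat.mul_le_mul_left _ (by omega)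
      omega
    · intro k
      exact (Nat.div_mul_cancel (h k).2.1).symm
  refine ⟨?_, ?_⟩
  · intro C c p h
    obtain ⟨hc, hpk, m, r, hr, hm, hpm⟩ := data C c p h
    have hb := (Pool.Agent.H712R2.mem_multibrot_iff le_rfl c).1 hc
    obtain ⟨δ, hδ0, _, hst⟩ := Pool.Agent.H79RN.stay le_rfl hb hr hpk
      (fun k => (by norm_num : 1 ≤ 2).trans (hm k)) hpm
    refine ⟨δ, hδ0, ?_⟩
    intro k n T R hn hT hR
    have hC2 : ∀ j, 2 ≤ C j := fun j => (hr j).two_le
    have hR' : R = δ / (Pool.Agent.H79RN.LL C m k ^ 3 * C k ^ n) := by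
      rw [hR, Real.exp_neg, div_eq_mul_inv]
      congr 2
      unfold cost Pool.Agent.H79RN.LL
      rw [Real.exp_add, Real.exp_nat_mul, Real.exp_log (by linarith [hC2 k])]
      congr 1
      rw [show (3 : ℝ) * ∑ j ∈ Finset.range k, (p (j + 1) / p j : ℝ) * Real.log (2 * C j * C (j + 1)) =
        ((3 : ℕ) : ℝ) * ∑ j ∈ Finset.range k, (p (j + 1) / p j : ℝ) * Real.log (2 * C j * C (j + 1)) by
          norm_num, Real.exp_nat_mul, Real.exp_sum]
      congr 1
      apply Finset.prod_congr rfl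
      intro j _
      have h1 : (0 : ℝ) < 2 * C j * C (j + 1) := by
        have := hC2 j
        have := hC2 (j + 1)
        positivity
      have h2 : (p (j + 1) / p j : ℝ) = m j := by
        have h3 : (p j : ℝ) ≠ 0 := by
          have := hpk j
          positivity
        rw [hpm j]
        push_cast
        field_simp
      rw [h2, Real.exp_nat_mul, Real.exp_log h1]
    have hR0 : 0 < R := by rw [hR]; positivity
    have hstay : ∀ a : ℂ, ‖a - c‖ ≤ R → ∀ i : ℕ, i ≤ T → ‖Pool.Agent.H712R2.P 2 i a‖ ≤ 3 := by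
      intro a ha i hi
      rw [hR'] at ha
      rw [hT] at hi
      exact hst k n a ha i hi
    have hT1 : 1 ≤ T := by
      rw [hT]
      exact Nat.mul_pos hn (hpk k)
    refine ⟨hstay, ?_, ?_, ?_⟩
    · intro i hi
      exact Pool.Agent.H79RN.der_of_stay (d := 2) hR0 (fun a ha => hstay a ha i hi)
    · exact Pool.Agent.H79RN.sup_of_stay (d := 2) le_rfl hψ hT1 hstay le_rfl
    · exact Pool.Agent.H79RN.vol_of_stay (d := 2) le_rfl hψ hc hT1 hstay (by linarith) (by linarith)
  · intro B C A hA c p h hB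
    obtain ⟨hc, hpk, m, r, hr, hm, hpm⟩ := data _ c p h
    have hb := (Pool.Agent.H712R2.mem_multibrot_iff le_rfl c).1 hc
    have hmB : ∀ k, m k ≤ B := by
      intro k
      have h1 := hB k
      rw [hpm k] at h1
      exact Nat.le_of_mul_le_mul_right h1 (hpk k)
    obtain ⟨η, hη, hpoly⟩ := Pool.Agent.H79RN.poly_of_type (d := 2) le_rfl hb hr (hpk 0) hm hpm hmB
    have hC2 : 2 ≤ C := (hr 0).two_le
    have hB2 : (2 : ℝ) ≤ B := by
      have := (hm 0).trans (hmB 0)
      exact_mod_cast this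
    have hA₀ : 0 < 3 * B * Real.log (2 * C ^ 2) / Real.log 2 := by
      have h1 : 0 < Real.log (2 * C ^ 2) := Real.log_pos (by nlinarith)
      have h2 : 0 < Real.log 2 := Real.log_pos (by norm_num)
      positivity
    have hsmall := hpoly.small le_rfl hψ hc hη hA₀ hA
    refine ⟨hsmall, hpoly.deriv_lt hη hA, ?_⟩
    intro F hF hE ζ hζ hFζ
    exact Pool.Agent.H79RN.loop_exp (hA₀.trans hA) (hsmall.mono fun r hr => hr.1) hF hE hζ hFζ

end Pool.Agent.Results.MP_b511e9_an.ExponentialFlatness
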