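import Mathlib
import Pool.Prelude.Def_F_c31e40fa
import Pool.Agent.H47.SP.Out
import Pool.Agent.H47.LC.Fill

set_option autoImplicit false

/-!
# Infinitely renormalizable parameters with a locally connected Julia set

The Mandelbrot set is remote at all infinitely renormalizable parameters with a locally connected
Julia set: the harmonic measure and Green's function of small discs decay faster than all powers of
the radius, superattracting parameters are rare and not exponentially near, and the derivatives along
the critical orbit grow subexponentially, uniformly. No a priori bounds are assumed.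

Proof. The filled Julia set `X` has no interior and does not separate the plane. By Mergelyan's theorem
continuous functions without zeros on subcontinua of `X` have continuous logarithms, so `X` is
hereditarily unicoherent. Together with the local connectivity this implies that a family of
subcontinua, any two of which have at most one common point, contains at most `N(r)` members of
diameter at least `r`. So nearly all of the `p` small Julia sets of a renormalization of a long period
`p` are small, and the criterion of `ShrinkingPieces` applies.
-/

open Filter Topology Set Metric MeasureTheory Complex N62a1eb23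

namespace Pool.Agent.Results.MP_b511e9_an.LocallyConnectedJulia

open Pool.Agent.H713R2
open Pool.Agent.H47.SP.Out

/-- The filled Julia set: the points with a bounded orbit. -/
def Filled (c : ℂ) : Set ℂ := {z | Bornology.IsBounded (range fun n : ℕ => (f c)^[n] z)}

/-- `c` is infinitely renormalizable: for infinitely many `p` there is a compact connected set `K`
which contains the critical point and is mapped into itself by `f_c^p`, such that any two of the sets
`K, f_c K, …, f_c^(p-1) K` have at most one common point. The small filled Julia sets of simple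
renormalizations have these properties, and by a theorem of McMullen an infinitely renormalizable
quadratic polynomial has infinitely many simple renormalizations. -/
def InfRen (c : ℂ) : Prop :=
  {p : ℕ | ∃ K : Set ℂ, IsCompact K ∧ IsPreconnected K ∧ (0 : ℂ) ∈ K ∧ MapsTo ((f c)^[p]) K K ∧
    ∀ i < p, ∀ j < p, i ≠ j → ((f c)^[i] '' K ∩ (f c)^[j] '' K).Subsingleton}.Infinite

/-- if the critical point is periodic, the filled Julia set has interior -/
theorem not_periodic {c : ℂ} (hint : interior (Filled c) = ∅) (n : ℕ) (hn : 1 ≤ n) :
    (f c)^[n] 0 ≠ 0 := by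
  intro h0
  obtain ⟨m, rfl⟩ : ∃ m, n = m + 1 := ⟨n - 1, by omega⟩
  have hd : ∀ k : ℕ, Differentiable ℂ ((f c)^[k]) := by
    intro k
    induction k with
    | zero => exact differentiable_id
    | succ k ih =>
      rw [Function.iterate_succ]
      exact ih.comp (by unfold f; fun_prop)
  have h1 : HasDerivAt (f c) 0 0 := by
    have h2 : HasDerivAt (f c) (((2 : ℕ) : ℂ) * 0 ^ (2 - 1)) 0 :=
      (hasDerivAt_pow 2 (0 : ℂ)).add_const c
    simpa using h2
  have h2 : HasDerivAt ((f c)^[m + 1]) 0 0 := by
    have h3 := (hd m (f c 0)).hasDerivAt.comp (0 : ℂ) h1
    rw [mul_zero] at h3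
    rw [Function.iterate_succ]
    exact h3
  rw [hasDerivAt_iff_isLittleO_nhds_zero] at h2
  have h3 := h2.def (show (0 : ℝ) < 1 by norm_num)
  obtain ⟨ρ, hρ, hb⟩ := Metric.eventually_nhds_iff_ball.1 h3
  have hm : MapsTo ((f c)^[m + 1]) (closedBall 0 (ρ / 2)) (closedBall 0 (ρ / 2)) := by
    intro z hz
    rw [mem_closedBall, dist_zero_right] at hz ⊢
    have h4 := hb z (by rw [mem_ball, dist_zero_right]; linarith)
    rw [zero_add, h0, smul_zero, sub_zero, sub_zero, one_mul] at h4
    linarith
  have h5 := Pool.Agent.H47.LC.piece_subset hn (isCompact_closedBall (0 : ℂ) (ρ / 2)) hm 0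
  rw [Function.iterate_zero, image_id] at h5
  have h6 : (0 : ℂ) ∈ interior (Filled c) := by
    rw [mem_interior]
    exact ⟨ball 0 (ρ / 2), ball_subset_closedBall.trans h5, isOpen_ball,
      mem_ball_self (by positivity)⟩
  rw [hint] at h6
  exact h6

/-- **The Mandelbrot set at infinitely renormalizable parameters with a locally connected Julia
set.** -/
theorem result :
    (∃ ψ : ℂ → ℂ, IsExteriorMap mandelbrotSet ψ) ∧
    ∀ ψ : ℂ → ℂ, IsExteriorMap mandelbrotSet ψ →
      ∀ c : ℂ, InfRen c → LocallyConnectedSpace (Filled c) → interior (Filled c) = ∅ →
        Remote ψ c := by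
  obtain ⟨β, hβ⟩ := exists_beta (d := 2) le_rfl
  refine ⟨⟨_, exteriorMap_of_beta hβ⟩, ?_⟩
  intro ψ hψ c hIR hLC hint
  obtain ⟨h1, hcM⟩ := Pool.Agent.H47.LC.sub_of_lc (c := c) hint hLC (by
    intro N
    obtain ⟨p, ⟨K, hK, hKc, h0, hm, hd⟩, hp⟩ := hIR.exists_gt N
    exact ⟨p, K, hp.le, hK, hKc, h0, hm, hd⟩)
  exact remote_of_sub hψ hcM h1 (not_periodic hint)

end Pool.Agent.Results.MP_b511e9_an.LocallyConnectedJulia
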