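import Mathlib
import Pool.Prelude.Def_F_c31e40fa
import Pool.Agent.H47.SP.Out
import Pool.Agent.H47.SP.Fibre

set_option autoImplicit false

/-!
# The geometry of the Mandelbrot set at parameters with shrinking pieces

A piece of period `p` of `f(z) = z ^ 2 + c` is a connected set `K` which contains the critical point
and is mapped into itself by `f^p`, such as the small Julia set of a renormalization of period `p`.
If for some `η > 0` and all `r > 0` there is a piece `K`, of some period `p`, such that at least `η p`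
of the sets `K, f K, …, f^(p-1) K` have a diameter less than `r`, then the derivatives along the
critical orbit grow subexponentially, uniformly, and `c` is remote: near `c` the harmonic measure and
Green's function of the Mandelbrot set are smaller than all powers, superattracting parameters are
rare and not exponentially near, and so on. The hypothesis holds at *all* real infinitely
renormalizable parameters, and at all infinitely renormalizable parameters for which at most countably
many fibres (intersections of nested small Julia sets) are not points.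

Proof. Let `χ > 0` be the maximal exponential growth rate of the derivatives of the iterates over long
parts of the critical orbit. On a long part where it is almost attained, nearly all times are
hyperbolic times with exponent nearly `χ`; at such a time `t` the disc of a certain radius `r` about
`f^t(0)` is pulled back univalently along the orbit. If the piece at time `t` were contained in this
disc, its pullbacks would be univalent, although one of the first `p` contains the critical point.
So nearly all pieces have a diameter at least `r`.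
-/

open Filter Topology Set Metric MeasureTheory Complex N62a1eb23

namespace Pool.Agent.Results.MP_b511e9_an.ShrinkingPieces

open Pool.Agent.H713R2
open Pool.Agent.H47.SP.Out

/-- `K` is a piece of period `p`: a connected set which contains the critical point and is mapped into
itself by the iterate `f_c^p`. -/
def Piece (c : ℂ) (p : ℕ) (K : Set ℂ) : Prop :=
  1 ≤ p ∧ IsPreconnected K ∧ (0 : ℂ) ∈ K ∧ MapsTo ((f c)^[p]) K K

/-- A positive proportion of the pieces of some periods shrinks: for some `η > 0` and all `r > 0` there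
is a piece `K`, of some period `p`, such that for at least `η p` of the numbers `i < p` all distances
of points of `f_c^i (K)` are less than `r`. -/
def Shrinking (c : ℂ) : Prop :=
  ∃ η : ℝ, 0 < η ∧ ∀ r : ℝ, 0 < r → ∃ (p : ℕ) (K : Set ℂ), Piece c p K ∧
    η * p ≤ {i : ℕ | i < p ∧ ∀ z ∈ K, ∀ w ∈ K, dist ((f c)^[i] z) ((f c)^[i] w) < r}.ncard

/-- `c` is a real infinitely renormalizable parameter: for infinitely many `p` there is a restrictive
interval of period `p`, a compact interval `J` around `0` which `x ↦ x ^ 2 + c`, iterated `p` times,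
maps into itself and whose first `p` images `J, f J, …, f^(p-1) J` have disjoint interiors. -/
def RealIR (c : ℝ) : Prop :=
  {p : ℕ | ∃ a b : ℝ, a < 0 ∧ 0 < b ∧
    MapsTo ((fun x : ℝ => x ^ 2 + c)^[p]) (Icc a b) (Icc a b) ∧
    ∀ i < p, ∀ j < p, i ≠ j →
      Disjoint (interior ((fun x : ℝ => x ^ 2 + c)^[i] '' Icc a b))
        (interior ((fun x : ℝ => x ^ 2 + c)^[j] '' Icc a b))}.Infinite

/-- Nested compact pieces `K 0 ⊇ K 1 ⊇ …` of the periods `p 0 < p 1 < …`, each dividing the next one.
For an infinitely renormalizable parameter one can take small Julia sets. -/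
structure Nested (c : ℂ) (p : ℕ → ℕ) (K : ℕ → Set ℂ) : Prop where
  mono : StrictMono p
  dvd : ∀ m, p m ∣ p (m + 1)
  compact : ∀ m, IsCompact (K m)
  piece : ∀ m, Piece c (p m) (K m)
  sub : ∀ m, K (m + 1) ⊆ K m

/-- The fibres `⋂ m, f_c^(x m) (K m)`, where `x` is a sequence of compatible residues modulo `p m` (a
point of the inverse limit of the cyclic groups of order `p m`), are single points (or empty) with at
most countably many exceptions. -/
def CountablyManyFibres (c : ℂ) (p : ℕ → ℕ) (K : ℕ → Set ℂ) : Prop :=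
  {x : ℕ → ℕ | (∀ m, x m < p m ∧ x (m + 1) % p m = x m) ∧
    ¬ (⋂ m, (f c)^[x m] '' K m).Subsingleton}.Countable

theorem small_eq (c : ℂ) (p : ℕ) (K : Set ℂ) (r : ℝ) :
    {i : ℕ | i < p ∧ ∀ z ∈ K, ∀ w ∈ K, dist ((f c)^[i] z) ((f c)^[i] w) < r}.ncard =
      Pool.Agent.H47.SP.cnt c r p K := by
  classical
  unfold Pool.Agent.H47.SP.cnt
  rw [← Set.ncard_coe_finset]
  congr 1
  ext i
  simp only [mem_ofPred_eq, Finset.coe_filter, Finset.mem_range]
  rfl

theorem mem_of_shrinking {c : ℂ} (h : Shrinking c) : c ∈ multibrotSet 2 := by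
  obtain ⟨η, hη, h⟩ := h
  obtain ⟨p, K, ⟨hp, hK, h0, hm⟩, hs⟩ := h 1 one_pos
  have hpR : (1 : ℝ) ≤ p := by exact_mod_cast hp
  have h1 : 0 < {i : ℕ | i < p ∧ ∀ z ∈ K, ∀ w ∈ K,
      dist ((f c)^[i] z) ((f c)^[i] w) < 1}.ncard := by
    have : (0 : ℝ) < {i : ℕ | i < p ∧ ∀ z ∈ K, ∀ w ∈ K,
      dist ((f c)^[i] z) ((f c)^[i] w) < 1}.ncard := lt_of_lt_of_le (by positivity) hs
    exact_mod_cast this
  have hfin : {i : ℕ | i < p ∧ ∀ z ∈ K, ∀ w ∈ K, dist ((f c)^[i] z) ((f c)^[i] w) < 1}.Finite :=
    (Set.finite_lt_nat p).subset fun i hi => hi.1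
  obtain ⟨i, hi, hd⟩ := (Set.ncard_pos hfin).1 h1
  -- the orbit of `f^i 0` under `f^p` is bounded
  intro ht
  have h2 : Tendsto (fun n : ℕ => i + (n + 1) * p) atTop atTop := by
    refine tendsto_atTop_mono (fun n => ?_) (tendsto_id (α := ℕ))
    show n ≤ i + (n + 1) * p
    nlinarith
  have h3 := ht.comp h2
  have h4 : ∀ᶠ z in Bornology.cobounded ℂ, z ∉ ball ((f c)^[i] 0) 1 :=
    (isBounded_ball : Bornology.IsBounded (ball ((f c)^[i] 0) 1))
  obtain ⟨n, hn⟩ := (h3.eventually h4).exists
  apply hn
  have h5 : ∀ k : ℕ, (f c)^[k * p] 0 ∈ K := by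
    intro k
    induction k with
    | zero => simpa using h0
    | succ k ih =>
      rw [Nat.succ_mul, Nat.add_comm, Function.iterate_add_apply]
      exact hm ih
  rw [mem_ball]
  show dist ((f c)^[i + (n + 1) * p] 0) _ < 1
  rw [Function.iterate_add_apply]
  exact hd _ (h5 (n + 1)) _ h0

/-- a nondegenerate interval has infinite images -/
theorem image_infinite {c : ℝ} {S : Set ℝ} (hS : S.Infinite) (n : ℕ) :
    ((fun x : ℝ => x ^ 2 + c)^[n] '' S).Infinite := by
  induction n with
  | zero => simpa using hS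
  | succ n ih =>
    rw [Function.iterate_succ', Set.image_comp]
    intro hfin
    apply ih
    have h1 : ((fun x : ℝ => x ^ 2 + c) ⁻¹'
        ((fun x : ℝ => x ^ 2 + c) '' ((fun x : ℝ => x ^ 2 + c)^[n] '' S))).Finite := by
      apply hfin.preimage'
      intro y _
      have h2 : (fun x : ℝ => x ^ 2 + c) ⁻¹' {y} ⊆ {Real.sqrt (y - c), -Real.sqrt (y - c)} := by
        intro x hx
        have hx' : x ^ 2 + c = y := hx
        have h3 : Real.sqrt (y - c) = |x| := by
          rw [← hx', add_sub_cancel_right, Real.sqrt_sq_eq_abs]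
        rw [mem_insert_iff, mem_singleton_iff, h3]
        rcases abs_choice x with h4 | h4
        · exact Or.inl h4.symm
        · right
          rw [h4, neg_neg]
      exact (Set.toFinite _).subset h2
    exact h1.subset (subset_preimage_image _ _)

/-- real infinitely renormalizable parameters are not superattracting -/
theorem real_ne {c : ℝ} (h : RealIR c) (n : ℕ) (hn : 1 ≤ n) : (f (c : ℂ))^[n] 0 ≠ 0 := by
  intro h0
  obtain ⟨p, ⟨a, b, ha, hb, hm, hd⟩, hp⟩ := h.exists_gt n
  have h1 : (fun x : ℝ => x ^ 2 + c)^[n] 0 = 0 := by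
    have h2 := Pool.Agent.H47.SP.iter_ofReal c n 0
    have h3 : (fun z : ℂ => z ^ 2 + (c : ℂ))^[n] ((0 : ℝ) : ℂ) = 0 := by
      rw [ofReal_zero]
      exact h0
    rw [h3] at h2
    exact_mod_cast h2.symm
  have hcont : Continuous ((fun x : ℝ => x ^ 2 + c)^[n]) := Continuous.iterate (by fun_prop) _
  have hab : a ≤ b := by linarith
  have h0J : (0 : ℝ) ∈ Icc a b := ⟨ha.le, hb.le⟩
  have hne : ((fun x : ℝ => x ^ 2 + c)^[n] '' Icc a b).Nonempty := ⟨_, mem_image_of_mem _ h0J⟩
  obtain ⟨u, v, huv⟩ : ∃ u v : ℝ, (fun x : ℝ => x ^ 2 + c)^[n] '' Icc a b = Icc u v :=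
    ⟨_, _, eq_Icc_of_connected_compact ⟨hne, isPreconnected_Icc.image _ hcont.continuousOn⟩
      (isCompact_Icc.image hcont)⟩
  have h4 : (0 : ℝ) ∈ Icc u v := by
    rw [← huv]
    exact ⟨0, ⟨ha.le, hb.le⟩, h1⟩
  have h5 : u < v := by
    by_contra hcon
    push Not at hcon
    have h6 := image_infinite (c := c) (Icc_infinite (show a < b by linarith)) n
    rw [huv] at h6
    exact h6 (subsingleton_Icc_of_ge hcon).finite
  have h7 := hd 0 (by omega) n hp (by omega)
  rw [huv, Function.iterate_zero, image_id, interior_Icc, interior_Icc, Set.disjoint_left] at h7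
  refine h7 (a := (max a u + min b v) / 2) ⟨?_, ?_⟩ ⟨?_, ?_⟩
  all_goals
    have e1 : max a u < min b v :=
      max_lt (lt_min (by linarith) (by linarith [h4.2])) (lt_min (by linarith [h4.1]) h5)
    have e2 := le_max_left a u
    have e3 := le_max_right a u
    have e4 := min_le_left b v
    have e5 := min_le_right b v
    linarith

/-- **Parameters with shrinking pieces are remote.** -/
theorem result :
    (∃ ψ : ℂ → ℂ, IsExteriorMap mandelbrotSet ψ) ∧
    ∀ ψ : ℂ → ℂ, IsExteriorMap mandelbrotSet ψ →
      -- (1) parameters with a positive proportion of shrinking pieces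
      (∀ c : ℂ, (∀ n : ℕ, 1 ≤ n → (f c)^[n] 0 ≠ 0) → Shrinking c → Remote ψ c) ∧
      -- (2) all real infinitely renormalizable parameters
      (∀ c : ℝ, RealIR c → Remote ψ (c : ℂ)) ∧
      -- (3) parameters with countably many nondegenerate fibres
      (∀ (c : ℂ) (p : ℕ → ℕ) (K : ℕ → Set ℂ), (∀ n : ℕ, 1 ≤ n → (f c)^[n] 0 ≠ 0) →
        Nested c p K → CountablyManyFibres c p K → Remote ψ c) := by
  obtain ⟨β, hβ⟩ := exists_beta (d := 2) le_rfl
  refine ⟨⟨_, exteriorMap_of_beta hβ⟩, ?_⟩
  intro ψ hψ
  refine ⟨?_, ?_, ?_⟩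
  · intro c hne h
    have hcM := mem_of_shrinking h
    refine remote_of_sub hψ hcM ?_ hne
    obtain ⟨η, hη, h⟩ := h
    apply Pool.Agent.H47.SP.sub_of_small hcM hη
    intro r hr
    obtain ⟨p, K, ⟨hp, hK, h0, hm⟩, hs⟩ := h r hr
    rw [small_eq] at hs
    exact ⟨p, K, hp, hK, h0, hm, hs⟩
  · intro c h
    have h1 : {p : ℕ | ∃ J, Pool.Agent.H47.SP.Restrictive c p J}.Infinite := by
      refine h.mono ?_
      rintro p ⟨a, b, ha, hb, hm, hd⟩
      exact ⟨Icc a b, ⟨a, b, rfl⟩, ⟨ha.le, hb.le⟩, hm, hd⟩
    have hcM : (c : ℂ) ∈ multibrotSet 2 := by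
      obtain ⟨p, ⟨J, ⟨a, b, rfl⟩, h0, hm, -⟩, hp⟩ := h1.exists_gt 0
      apply Pool.Agent.H47.SP.mem_of_bounded (K := Complex.ofReal '' Icc a b) hp
        (isCompact_Icc.image continuous_ofReal).isBounded ⟨0, h0, by simp⟩
      rintro _ ⟨x, hx, rfl⟩
      rw [Pool.Agent.H47.SP.iter_ofReal]
      exact ⟨_, hm hx, rfl⟩
    exact remote_of_sub hψ hcM (Pool.Agent.H47.SP.sub_of_real h1) (real_ne h)
  · intro c p K hne hN hcount
    have hNest : Pool.Agent.H47.SP.Nest c p K :=
      ⟨hN.mono, (hN.piece 0).1, hN.dvd, hN.compact, fun m => (hN.piece m).2.1,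
        fun m => (hN.piece m).2.2.1, fun m => (hN.piece m).2.2.2, hN.sub⟩
    exact remote_of_sub hψ
      (Pool.Agent.H47.SP.mem_of_bounded (hN.piece 0).1 (hN.compact 0).isBounded (hN.piece 0).2.2.1
        (hN.piece 0).2.2.2) (Pool.Agent.H47.SP.sub_of_countable hNest hcount) hne

end Pool.Agent.Results.MP_b511e9_an.ShrinkingPieces
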